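import Mathlib
import Pool.Agent.R246.SmoothB

/-!
# MP_d6da6d: the indicator of an interval is not an extremizer, for any `α > 0`
-/

namespace Pool.Agent.Results.MP_d6da6d_an.NotExtremizer

open MeasureTheory Set Filter Topology FourierTransform
open scoped ENNReal

noncomputable section

/-- The functional `Φ_α(u) = ‖ξ û(ξ)‖_∞^α ‖|x|^α u‖_1 / ‖u‖_1^{α+1}`. -/
def Phi (α : ℝ) (u : ℝ → ℂ) : ℝ≥0∞ :=
  (eLpNorm (fun ξ : ℝ => (ξ : ℂ) * 𝓕 u ξ) ⊤ volume) ^ α *
    (∫⁻ x, ENNReal.ofReal (|x| ^ α) * ‖u x‖ₑ) / (∫⁻ x, ‖u x‖ₑ) ^ (α + 1)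

/-- The indicator function `χ` of `[-1/2, 1/2]`. -/
def chi : ℝ → ℂ := (Icc (-(1 / 2) : ℝ) (1 / 2)).indicator 1

open R246.Smooth R246.SmoothB

/-- For every real `α > 0` the function `χ` is not an extremizer of `Φ_α` on `L¹(ℝ)`; there is
even a better (complex-valued) function which vanishes exactly outside `[-1/2, 1/2]`. -/
theorem result (α : ℝ) (hα : 0 < α) : ∃ u : ℝ → ℂ, Integrable u ∧ ¬ u =ᵐ[volume] 0 ∧
    (∀ x, u x ≠ 0 ↔ x ∈ Icc (-(1 / 2) : ℝ) (1 / 2)) ∧ Phi α u < Phi α chi := by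
  have hpi := Real.pi_pos
  have hc := cA_pos hα
  have hG := G0_pos hα
  set c := cA α with hcdef
  set G := G0 α with hGdef
  -- a good small parameter
  let ψ : ℝ → ℝ := fun t => (1 + 10 * t ^ 2) ^ α * (G * (1 + t ^ 2) - t * c) /
    (1 - 2 * t ^ 2) ^ (α + 1)
  have hψ0 : ψ 0 = G := by simp [ψ]
  have hψd : HasDerivAt ψ (-c) 0 := by
    have a1 : HasDerivAt (fun t : ℝ => 1 + 10 * t ^ 2) 0 0 := by
      have := ((hasDerivAt_pow 2 (0 : ℝ)).const_mul 10).const_add 1
      refine this.congr_deriv (by simp)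
    have a2 : HasDerivAt (fun t : ℝ => (1 + 10 * t ^ 2) ^ α) 0 0 := by
      have := a1.rpow_const (p := α) (Or.inl (by norm_num))
      refine this.congr_deriv (by simp)
    have a3 : HasDerivAt (fun t : ℝ => G * (1 + t ^ 2) - t * c) (-c) 0 := by
      have b1 := ((hasDerivAt_pow 2 (0 : ℝ)).const_add 1).const_mul G
      have b2 := (hasDerivAt_id (0 : ℝ)).mul_const c
      have := b1.sub b2
      refine HasDerivAt.congr_deriv
        (show HasDerivAt (fun t : ℝ => G * (1 + t ^ 2) - t * c) _ 0 from this) (by simp)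
    have a4 : HasDerivAt (fun t : ℝ => 1 - 2 * t ^ 2) 0 0 := by
      have := ((hasDerivAt_pow 2 (0 : ℝ)).const_mul 2).const_sub 1
      refine this.congr_deriv (by simp)
    have a5 : HasDerivAt (fun t : ℝ => (1 - 2 * t ^ 2) ^ (α + 1)) 0 0 := by
      have := a4.rpow_const (p := α + 1) (Or.inl (by norm_num))
      refine this.congr_deriv (by simp)
    have := (a2.mul a3).div a5 (by simp)
    refine HasDerivAt.congr_deriv (show HasDerivAt ψ _ 0 from this) (by simp)
  obtain ⟨t, ht0, ht4, htψ⟩ : ∃ t : ℝ, 0 < t ∧ t < 1 / 4 ∧ ψ t < G := by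
    have h1 := hψd.tendsto_slope_zero_right
    have h2 := h1.eventually_lt_const (show -c < 0 by linarith)
    have h3 : ∀ᶠ t : ℝ in 𝓝[>] 0, t < 1 / 4 :=
      nhdsWithin_le_nhds (eventually_lt_nhds (by norm_num))
    obtain ⟨t, ⟨h4, h5⟩, h6⟩ := ((h2.and h3).and self_mem_nhdsWithin).exists
    have h6' : 0 < t := h6
    refine ⟨t, h6', h5, ?_⟩
    rw [zero_add, hψ0, smul_eq_mul] at h4
    have : ψ t - G < 0 := by
      by_contra hcon
      push Not at hcon
      have : 0 ≤ t⁻¹ * (ψ t - G) := mul_nonneg (by positivity) hcon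
      linarith
    linarith
  set ε := Real.sqrt t with hε
  have hε2 : ε ^ 2 = t := Real.sq_sqrt ht0.le
  have hε4 : ε ^ 4 = t ^ 2 := by rw [← hε2]; ring
  set u := w (kap ε) with hu
  -- norms of `u`
  have hA : eLpNorm (fun ξ : ℝ => (ξ : ℂ) * 𝓕 u ξ) ⊤ volume ≤
      ENNReal.ofReal (1 / Real.pi * (1 + 10 * t ^ 2)) := by
    rw [eLpNorm_exponent_top]
    refine eLpNormEssSup_le_of_ae_bound (Eventually.of_forall fun ξ => ?_)
    rw [← hε4]
    exact norm_four_le ε ξ
  have hB : ∫⁻ x, ENNReal.ofReal (|x| ^ α) * ‖u x‖ₑ ≤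
      ENNReal.ofReal (G * (1 + t ^ 2) - t * c) := by
    have := weighted_le hα ε
    rwa [hε4, hε2] at this
  have hF : ENNReal.ofReal (1 - 2 * t ^ 2) ≤ ∫⁻ x, ‖u x‖ₑ := by
    have := le_norm1 (ε := ε) (by rw [hε2]; exact ht4.le)
    rwa [hε4] at this
  have ht2 : t ^ 2 < 1 / 16 := by nlinarith
  have hD : 0 < 1 - 2 * t ^ 2 := by linarith
  -- norms of `χ`
  have hchi : chi = w 0 := by
    unfold chi w
    congr 1
    funext x; simp
  have hchi' : w 0 = w (kap 0) := by unfold kap; simp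
  have hAc : ENNReal.ofReal (1 / Real.pi) ≤
      eLpNorm (fun ξ : ℝ => (ξ : ℂ) * 𝓕 chi ξ) ⊤ volume := by
    set F : ℝ → ℂ := fun ξ : ℝ => (ξ : ℂ) * 𝓕 chi ξ with hFdef
    have hFe : F = fun ξ : ℝ => (1 / (2 * Real.pi) : ℂ) * (2 * (Real.sin (Real.pi * ξ) : ℂ)) := by
      funext ξ
      rw [hFdef, hchi]
      simp only [four, zero_mul, add_zero]
    have hFc : Continuous F := by rw [hFe]; fun_prop
    have hFh : ‖F (1 / 2)‖ₑ = ENNReal.ofReal (1 / Real.pi) := by
      rw [← ofReal_norm, hFe]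
      congr 1
      simp only []
      have : Real.pi * (1 / 2) = Real.pi / 2 := by ring
      rw [this, Real.sin_pi_div_two]
      have e5 : (1 / (2 * Real.pi) : ℂ) * (2 * ((1 : ℝ) : ℂ)) = ((1 / Real.pi : ℝ) : ℂ) := by
        have : (Real.pi : ℂ) ≠ 0 := by exact_mod_cast hpi.ne'
        push_cast
        field_simp
      rw [e5, Complex.norm_real, Real.norm_eq_abs, abs_of_pos (by positivity)]
    rw [← hFh, eLpNorm_exponent_top]
    by_contra hcon
    push Not at hcon
    have hopen : IsOpen {x | eLpNormEssSup F volume < ‖F x‖ₑ} :=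
      isOpen_lt continuous_const hFc.enorm
    have hpos := hopen.measure_pos volume ⟨1 / 2, hcon⟩
    have hae := ae_le_eLpNormEssSup (f := F) (μ := (volume : Measure ℝ))
    have hz : volume {x | eLpNormEssSup F volume < ‖F x‖ₑ} = 0 := by
      have : {x | eLpNormEssSup F volume < ‖F x‖ₑ} = {x | ¬ ‖F x‖ₑ ≤ eLpNormEssSup F volume} := by
        ext x; simp
      rw [this]
      exact hae
    rw [hz] at hpos
    exact lt_irrefl _ hpos
  have hBc : ∫⁻ x, ENNReal.ofReal (|x| ^ α) * ‖chi x‖ₑ = ENNReal.ofReal G := by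
    have h1 : ∫⁻ x, ENNReal.ofReal (|x| ^ α) * ‖chi x‖ₑ =
        ∫⁻ x in Iv, ENNReal.ofReal (|x| ^ α) := by
      rw [← lintegral_indicator measurableSet_Icc]
      refine lintegral_congr fun x => ?_
      unfold chi
      by_cases hx : x ∈ Iv
      · rw [indicator_of_mem hx, indicator_of_mem hx]; simp
      · rw [indicator_of_notMem hx, indicator_of_notMem hx]; simp
    rw [h1, lint_eq (continuous_pow hα) (fun x _ => Real.rpow_nonneg (abs_nonneg _) _)]
    rfl
  have hFc : ∫⁻ x, ‖chi x‖ₑ = 1 := by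
    have h1 : ∫⁻ x, ‖chi x‖ₑ = ∫⁻ x in Iv, 1 := by
      rw [← lintegral_indicator measurableSet_Icc]
      refine lintegral_congr fun x => ?_
      unfold chi
      by_cases hx : x ∈ Iv
      · rw [indicator_of_mem hx, indicator_of_mem hx]; simp
      · rw [indicator_of_notMem hx, indicator_of_notMem hx]; simp
    rw [h1, setLIntegral_one, Real.volume_Icc]
    norm_num
  -- nonvanishing
  have hne : ∀ x ∈ Iv, u x ≠ 0 := by
    intro x hx h0
    have h1 := le_norm_w (ε := ε) (by rw [hε2]; linarith) hx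
    have h2 : ‖w (kap ε) x‖ = 0 := by rw [← hu, h0, norm_zero]
    rw [h2, hε2, hε4] at h1
    obtain ⟨c0, c1⟩ := cos_mem hx
    have h5 : -1 ≤ h x := by
      unfold h
      nlinarith [Real.pi_lt_d2, Real.pi_pos]
    nlinarith
  refine ⟨u, integrable_w _, ?_, ?_, ?_⟩
  · intro h0
    have h1 : ∫⁻ x, ‖u x‖ₑ = 0 := by
      rw [lintegral_congr_ae (g := fun _ => 0) (h0.mono fun x hx => by
        simp only [hx]; simp)]
      simp
    rw [h1] at hF
    have : ENNReal.ofReal (1 - 2 * t ^ 2) = 0 := le_antisymm hF bot_le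
    rw [ENNReal.ofReal_eq_zero] at this
    linarith
  · intro x
    constructor
    · intro hx
      by_contra hcon
      apply hx
      show w (kap ε) x = 0
      unfold w
      exact indicator_of_notMem hcon _
    · exact hne x
  · -- the comparison
    have hup : Phi α u ≤ ENNReal.ofReal ((1 / Real.pi) ^ α * ψ t) := by
      unfold Phi
      have h1 : (eLpNorm (fun ξ : ℝ => (ξ : ℂ) * 𝓕 u ξ) ⊤ volume) ^ α ≤
          ENNReal.ofReal ((1 / Real.pi * (1 + 10 * t ^ 2)) ^ α) := by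
        rw [← ENNReal.ofReal_rpow_of_nonneg (by positivity) hα.le]
        exact ENNReal.rpow_le_rpow hA hα.le
      have h2 : ENNReal.ofReal ((1 - 2 * t ^ 2) ^ (α + 1)) ≤ (∫⁻ x, ‖u x‖ₑ) ^ (α + 1) := by
        rw [← ENNReal.ofReal_rpow_of_nonneg hD.le (by linarith)]
        exact ENNReal.rpow_le_rpow hF (by linarith)
      refine (ENNReal.div_le_div (mul_le_mul' h1 hB) h2).trans ?_
      rw [← ENNReal.ofReal_mul (by positivity), ← ENNReal.ofReal_div_of_pos
        (Real.rpow_pos_of_pos hD _), Real.mul_rpow (by positivity) (by positivity)]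
      refine ENNReal.ofReal_le_ofReal (le_of_eq ?_)
      simp only [ψ]
      ring
    have hlow : ENNReal.ofReal ((1 / Real.pi) ^ α * G) ≤ Phi α chi := by
      unfold Phi
      rw [hBc, hFc, ENNReal.one_rpow, div_one, ENNReal.ofReal_mul (by positivity),
        ← ENNReal.ofReal_rpow_of_nonneg (by positivity) hα.le]
      exact mul_le_mul_left (ENNReal.rpow_le_rpow hAc hα.le) _
    refine lt_of_le_of_lt hup (lt_of_lt_of_le ?_ hlow)
    rw [ENNReal.ofReal_lt_ofReal_iff (by positivity)]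
    exact mul_lt_mul_of_pos_left htψ (by positivity)

end

end Pool.Agent.Results.MP_d6da6d_an.NotExtremizer
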